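import Mathlib
import Pool.Agent.X143.LZ.Seq

set_option linter.unusedSectionVars false

namespace Pool.Agent.Results.MP_357d86_pr.BlockDensity

open Pool.Agent.X143.LZ
open MeasureTheory ENNReal Set Filter Topology

/-- distribution function of the first marginal -/
noncomputable def F1 (ν : Measure (ℝ × ℝ)) (y : ℝ) : ℝ := ν.real {u | u.1 ≤ y}

/-- distribution function of the second marginal -/
noncomputable def F2 (ν : Measure (ℝ × ℝ)) (y : ℝ) : ℝ := ν.real {u | u.2 ≤ y}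

/-- The Arnold-type Lorenz curve of the law `ν`: the integral of `u_1 u_2` over
`u_1 ≤ F_1^{-1}(x_1)`, `u_2 ≤ F_2^{-1}(x_2)`, divided by the integral over the whole plane.
As `F^{-1}(x) = inf {y | x ≤ F y}`, the condition `u ≤ F^{-1}(x)` says that `u ≤ y` for all `y`
with `x ≤ F y`. -/
noncomputable def lorenz (ν : Measure (ℝ × ℝ)) (x1 x2 : ℝ) : ℝ :=
  (∫ u in {u : ℝ × ℝ | (∀ y, x1 ≤ F1 ν y → u.1 ≤ y) ∧ (∀ y, x2 ≤ F2 ν y → u.2 ≤ y)},
    u.1 * u.2 ∂ν) / ∫ u, u.1 * u.2 ∂ν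

/-- `ν n` are the laws of the iteration: `ν (n+1)` is the probability measure on `[0,1]^2` whose
distribution function is the Lorenz curve of `ν n`. -/
structure IsIteration (ν : ℕ → Measure (ℝ × ℝ)) : Prop where
  prob : ∀ n, IsProbabilityMeasure (ν n)
  supp : ∀ n, ν (n + 1) (Icc 0 1 ×ˢ Icc 0 1) = 1
  cdf : ∀ n, ∀ x1 ∈ Icc (0 : ℝ) 1, ∀ x2 ∈ Icc (0 : ℝ) 1,
    (ν (n + 1)).real (Iic x1 ×ˢ Iic x2) = lorenz (ν n) x1 x2

/-- the conditions on the law of `X`: non-negative coordinates, a density, finite and positive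
first moments and mixed moment. -/
structure Admissible (ν : Measure (ℝ × ℝ)) : Prop where
  density : ν ≪ volume
  nonneg : ∀ᵐ u ∂ν, 0 ≤ u.1 ∧ 0 ≤ u.2
  int1 : Integrable (fun u : ℝ × ℝ => u.1) ν
  pos1 : 0 < ∫ u, u.1 ∂ν
  int2 : Integrable (fun u : ℝ × ℝ => u.2) ν
  pos2 : 0 < ∫ u, u.2 ∂ν
  int12 : Integrable (fun u : ℝ × ℝ => u.1 * u.2) ν
  pos12 : 0 < ∫ u, u.1 * u.2 ∂ν

/-- the transformation of the plane at step `n` -/
noncomputable def Gm (n : ℕ) (u : ℝ × ℝ) : ℝ × ℝ := ((gf n u.1).toReal, (gf n u.2).toReal)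

lemma Gm_meas (n : ℕ) : Measurable (Gm n) :=
  (((gf_meas n).comp measurable_fst).ennreal_toReal).prodMk
    (((gf_meas n).comp measurable_snd).ennreal_toReal)

/-- the tilted law on the original space -/
noncomputable def tN (n : ℕ) : Measure (ℝ × ℝ) := (ZZ n)⁻¹ • Nt (Wf n)

instance (n : ℕ) : IsProbabilityMeasure (tN n) := by
  constructor
  unfold tN
  rw [Measure.smul_apply, smul_eq_mul]
  exact ENNReal.inv_mul_cancel (ZZ_pos n).ne' (ZZ_ne_top n)

/-- the law of the iteration -/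
noncomputable def nu (n : ℕ) : Measure (ℝ × ℝ) := (tN n).map (Gm n)

instance (n : ℕ) : IsProbabilityMeasure (nu n) :=
  Measure.isProbabilityMeasure_map (Gm_meas n).aemeasurable

lemma gf_succ_eq (n : ℕ) (u : ℝ) : gf (n + 1) u = tN n {v | v.1 ≤ u} := by
  rw [gf_succ]
  unfold gn tN
  rw [Measure.smul_apply, smul_eq_mul]
  rfl

lemma F1_eq (n : ℕ) (y : ℝ) : F1 (nu n) y = (tN n).real {v | (gf n v.1).toReal ≤ y} := by
  unfold F1 nu
  rw [map_measureReal_apply (Gm_meas n) (measurableSet_le measurable_fst measurable_const)]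
  rfl

lemma F2_eq (n : ℕ) (y : ℝ) : F2 (nu n) y = F1 (nu n) y := by
  rw [F1_eq]
  unfold F2 nu
  rw [map_measureReal_apply (Gm_meas n) (measurableSet_le measurable_snd measurable_const)]
  have hA : MeasurableSet {t : ℝ | (gf n t).toReal ≤ y} :=
    measurableSet_le (gf_meas n).ennreal_toReal measurable_const
  have h1 := Nt_fst (Wf n) hA
  have h2 := Nt_snd (Wf n) hA
  unfold Measure.real tN
  rw [Measure.smul_apply, Measure.smul_apply]
  congr 2
  exact h2.trans h1.symm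

lemma tN_pos (n : ℕ) : ∀ᵐ v ∂(tN n), 0 < v.1 ∧ 0 < v.2 :=
  Measure.ae_smul_measure (Nt_pos _) _

/-- `u ≤ F^{-1}(x)` -/
def AA (n : ℕ) (x t : ℝ) : Prop := ∀ y, x ≤ F1 (nu n) y → t ≤ y

lemma AA_closed (n : ℕ) (x : ℝ) : IsClosed {t | AA n x t} := by
  have : {t | AA n x t} = ⋂ y ∈ {y | x ≤ F1 (nu n) y}, Iic y := by
    ext t
    simp [AA]
  rw [this]
  exact isClosed_biInter fun y _ => isClosed_Iic

lemma F1_le (n : ℕ) {u y : ℝ} (hy : y < (gf n u).toReal) :
    F1 (nu n) y ≤ (gf (n + 1) u).toReal := by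
  rw [F1_eq, gf_succ_eq]
  apply ENNReal.toReal_mono (measure_ne_top _ _)
  apply measure_mono_ae
  filter_upwards [tN_pos n] with v hv hvy
  by_contra hlt
  have h1 : u < v.1 := not_le.1 hlt
  have h2 : gf n u ≤ gf n v.1 := gf_mono n h1.le
  have h3 := ENNReal.toReal_mono (gf_ne_top n v.1) h2
  have h4 : (gf n v.1).toReal ≤ y := hvy
  linarith

lemma F1_ge (n : ℕ) (v : ℝ) : (gf (n + 1) v).toReal ≤ F1 (nu n) (gf n v).toReal := by
  rw [F1_eq, gf_succ_eq]
  apply ENNReal.toReal_mono (measure_ne_top _ _)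
  apply measure_mono
  intro w hw
  exact ENNReal.toReal_mono (gf_ne_top n v) (gf_mono n hw)

lemma AA_of_lt (n : ℕ) {u x : ℝ} (h : (gf (n + 1) u).toReal < x) :
    AA n x (gf n u).toReal := by
  intro y hy
  by_contra hlt
  have := F1_le n (not_le.1 hlt)
  linarith

lemma lt_of_AA (n : ℕ) {u v x : ℝ} (hv : 0 < v) (hvu : v < u) (h : AA n x (gf n u).toReal) :
    (gf (n + 1) v).toReal < x := by
  by_contra hge
  have h1 := h _ ((not_lt.1 hge).trans (F1_ge n v))
  have h2 : gf n v < gf n u := gf_strict n (mem_Ioi.2 hv) (mem_Ioi.2 (hv.trans hvu)) hvu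
  have h3 := (ENNReal.toReal_lt_toReal (gf_ne_top n v) (gf_ne_top n u)).2 h2
  linarith

/-- the exceptional set -/
def DD (n : ℕ) (x : ℝ) : Set ℝ :=
  {u | 0 < u ∧ ¬ (AA n x (gf n u).toReal ↔ (gf (n + 1) u).toReal ≤ x)}

lemma DD_null (n : ℕ) (x : ℝ) : volume (DD n x) = 0 := by
  set D1 : Set ℝ := {u | 0 < u ∧ AA n x (gf n u).toReal ∧ x < (gf (n + 1) u).toReal} with hD1
  set D2 : Set ℝ := {u | 0 < u ∧ ¬ AA n x (gf n u).toReal ∧ (gf (n + 1) u).toReal ≤ x} with hD2
  have hsub : DD n x ⊆ D1 ∪ D2 := by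
    rintro u ⟨hu, h⟩
    by_cases hA : AA n x (gf n u).toReal
    · left
      refine ⟨hu, hA, ?_⟩
      by_contra hle
      exact h ⟨fun _ => not_lt.1 hle, fun _ => hA⟩
    · right
      refine ⟨hu, hA, ?_⟩
      by_contra hle
      exact h ⟨fun h' => absurd h' hA, fun h' => absurd h' hle⟩
  have h1 : D1.Subsingleton := by
    have key : ∀ u v, u ∈ D1 → v ∈ D1 → ¬ u < v := by
      intro u v hu hv huv
      have := lt_of_AA n hu.1 huv hv.2.1
      linarith [hu.2.2]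
    intro u hu v hv
    rcases lt_trichotomy u v with h | h | h
    · exact absurd h (key u v hu hv)
    · exact h
    · exact absurd h (key v u hv hu)
  have h2 : D2.Subsingleton := by
    have hx : ∀ u ∈ D2, (gf (n + 1) u).toReal = x := by
      intro u hu
      refine le_antisymm hu.2.2 (not_lt.1 fun hlt => hu.2.1 (AA_of_lt n hlt))
    intro u hu v hv
    have h3 : gf (n + 1) u = gf (n + 1) v := by
      rw [← ENNReal.toReal_eq_toReal_iff' (gf_ne_top _ _) (gf_ne_top _ _), hx u hu, hx v hv]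
    exact (gf_strict (n + 1)).injOn (mem_Ioi.2 hu.1) (mem_Ioi.2 hv.1) h3
  exact measure_mono_null hsub (measure_union_null (h1.measure_zero volume) (h2.measure_zero volume))

/-- the target event -/
def TT (n : ℕ) (x1 x2 : ℝ) : Set (ℝ × ℝ) :=
  {u | (gf (n + 1) u.1).toReal ≤ x1 ∧ (gf (n + 1) u.2).toReal ≤ x2}

lemma TT_meas (n : ℕ) (x1 x2 : ℝ) : MeasurableSet (TT n x1 x2) :=
  (measurableSet_le ((gf_meas _).comp measurable_fst).ennreal_toReal measurable_const).inter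
    (measurableSet_le ((gf_meas _).comp measurable_snd).ennreal_toReal measurable_const)

lemma cdf_eq (n : ℕ) (x1 x2 : ℝ) :
    (nu (n + 1)).real (Iic x1 ×ˢ Iic x2) = (tN (n + 1)).real (TT n x1 x2) := by
  unfold nu
  rw [map_measureReal_apply (Gm_meas _) (measurableSet_Iic.prod measurableSet_Iic)]
  rfl

lemma integral_nu (n : ℕ) {R : Set (ℝ × ℝ)} (hR : MeasurableSet R) :
    ∫ u in R, u.1 * u.2 ∂(nu n) = ((ZZ n)⁻¹ * Nt (Wf (n + 1)) (Gm n ⁻¹' R)).toReal := by
  unfold nu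
  rw [setIntegral_map (f := fun u : ℝ × ℝ => u.1 * u.2) hR
    (measurable_fst.mul measurable_snd).aestronglyMeasurable (Gm_meas n).aemeasurable]
  have h1 : ∀ u : ℝ × ℝ, (Gm n u).1 * (Gm n u).2 = (gf n u.1 * gf n u.2).toReal := by
    intro u
    rw [ENNReal.toReal_mul]
    rfl
  simp_rw [h1]
  have hm : Measurable fun u : ℝ × ℝ => gf n u.1 * gf n u.2 :=
    ((gf_meas n).comp measurable_fst).mul ((gf_meas n).comp measurable_snd)
  rw [integral_toReal hm.aemeasurable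
    (Filter.Eventually.of_forall fun u =>
      (ENNReal.mul_lt_top (lt_top_iff_ne_top.2 (gf_ne_top n _)) (lt_top_iff_ne_top.2 (gf_ne_top n _))))]
  congr 1
  unfold tN
  rw [Measure.restrict_smul, lintegral_smul_measure, Wf_succ,
    Nt_mul_apply (Wf_meas n) (gf_meas n) (Gm_meas n hR)]
  rfl

lemma lorenz_eq (n : ℕ) (x1 x2 : ℝ) : lorenz (nu n) x1 x2 = (tN (n + 1)).real (TT n x1 x2) := by
  unfold lorenz
  simp_rw [F2_eq]
  have hset : {u : ℝ × ℝ | (∀ y, x1 ≤ F1 (nu n) y → u.1 ≤ y) ∧ (∀ y, x2 ≤ F1 (nu n) y → u.2 ≤ y)}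
      = {t | AA n x1 t} ×ˢ {t | AA n x2 t} := rfl
  have hR : MeasurableSet ({t | AA n x1 t} ×ˢ {t | AA n x2 t}) :=
    (AA_closed n x1).measurableSet.prod (AA_closed n x2).measurableSet
  rw [hset, integral_nu n hR]
  have huniv := integral_nu n (R := univ) MeasurableSet.univ
  rw [Measure.restrict_univ, preimage_univ] at huniv
  rw [huniv]
  have hae : Nt (Wf (n + 1)) (Gm n ⁻¹' ({t | AA n x1 t} ×ˢ {t | AA n x2 t}))
      = Nt (Wf (n + 1)) (TT n x1 x2) := by
    apply measure_congr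
    filter_upwards [Nt_pos (Wf (n + 1)), Nt_fst_null (Wf (n + 1)) (DD_null n x1),
      Nt_snd_null (Wf (n + 1)) (DD_null n x2)] with u hu h1 h2
    have e1 : AA n x1 (gf n u.1).toReal ↔ (gf (n + 1) u.1).toReal ≤ x1 := by
      by_contra hne
      exact h1 ⟨hu.1, hne⟩
    have e2 : AA n x2 (gf n u.2).toReal ↔ (gf (n + 1) u.2).toReal ≤ x2 := by
      by_contra hne
      exact h2 ⟨hu.2, hne⟩
    exact propext (and_congr e1 e2)
  rw [hae]
  unfold Measure.real tN
  rw [Measure.smul_apply, smul_eq_mul, ← ENNReal.toReal_div]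
  congr 1
  change (ZZ n)⁻¹ * Nt (Wf (n + 1)) (TT n x1 x2) / ((ZZ n)⁻¹ * ZZ (n + 1)) = _
  rw [ENNReal.mul_div_mul_left _ _ (ENNReal.inv_ne_zero.2 (ZZ_ne_top n))
    (ENNReal.inv_ne_top.2 (ZZ_pos n).ne'), ENNReal.div_eq_inv_mul]

lemma isIteration : IsIteration nu where
  prob := fun n => inferInstance
  supp := fun n => by
    have h1 : nu (n + 1) (Icc 0 1 ×ˢ Icc 0 1)ᶜ = 0 := by
      unfold nu
      rw [Measure.map_apply (Gm_meas _) (measurableSet_Icc.prod measurableSet_Icc).compl]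
      have : Gm (n + 1) ⁻¹' (Icc (0 : ℝ) 1 ×ˢ Icc (0 : ℝ) 1)ᶜ = ∅ := by
        rw [preimage_compl, compl_empty_iff, eq_univ_iff_forall]
        intro u
        have h2 : ∀ t : ℝ, (gf (n + 1) t).toReal ≤ 1 := fun t => by
          have := ENNReal.toReal_mono one_ne_top (gn_le_one (Wf n) t)
          rwa [ENNReal.toReal_one] at this
        exact ⟨⟨ENNReal.toReal_nonneg, h2 _⟩, ⟨ENNReal.toReal_nonneg, h2 _⟩⟩
      rw [this, measure_empty]
    rw [prob_compl_eq_zero_iff (measurableSet_Icc.prod measurableSet_Icc)] at h1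
    exact h1
  cdf := fun n x1 _ x2 _ => by rw [cdf_eq, lorenz_eq]

/-! ### the initial law -/

lemma ZZ_zero : ZZ 0 = 1 := by
  rw [ZZ_eq]
  have h1 : ∀ k, ww 0 k = 1 := by
    intro k
    unfold ww mW
    rw [withDensity_apply _ MeasurableSet.univ, Measure.restrict_univ]
    simp [Wf_zero]
  simp_rw [h1, mul_one]
  unfold pp
  simp_rw [pow_succ]
  rw [ENNReal.tsum_mul_right, ENNReal.tsum_geometric]
  rw [ENNReal.one_sub_inv_two, inv_inv]
  exact ENNReal.mul_inv_cancel (by norm_num) (by norm_num)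

lemma Nt_ac (W : ℝ → ℝ≥0∞) : Nt W ≪ volume := by
  unfold Nt
  refine Measure.absolutelyContinuous_sum_left fun k => ?_
  apply Measure.AbsolutelyContinuous.smul_left
  exact (mW_ac W k).prod (mW_ac W k)

lemma Gm_zero_ae : ∀ᵐ u ∂(tN 0), Gm 0 u = u := by
  filter_upwards [tN_pos 0] with u hu
  unfold Gm
  rw [gf_zero]
  simp only
  rw [ENNReal.toReal_ofReal hu.1.le, ENNReal.toReal_ofReal hu.2.le]

lemma nu_zero : nu 0 = tN 0 := by
  unfold nu
  rw [Measure.map_congr (g := id) Gm_zero_ae, Measure.map_id]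

lemma ofReal_int {f : ℝ × ℝ → ℝ} (hf : Measurable f) (hpos : ∀ᵐ u ∂(tN 0), 0 < f u)
    (hfin : ∫⁻ u, ENNReal.ofReal (f u) ∂(tN 0) ≠ ∞) :
    Integrable f (nu 0) ∧ 0 < ∫ u, f u ∂(nu 0) := by
  rw [nu_zero]
  have hint : Integrable f (tN 0) := by
    refine ⟨hf.aestronglyMeasurable, ?_⟩
    rw [hasFiniteIntegral_iff_ofReal (hpos.mono fun u hu => hu.le)]
    exact lt_top_iff_ne_top.2 hfin
  refine ⟨hint, ?_⟩
  rw [integral_pos_iff_support_of_nonneg_ae (hpos.mono fun u hu => hu.le) hint]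
  have : tN 0 (Function.support f)ᶜ = 0 := by
    refine measure_mono_null ?_ (ae_iff.1 hpos)
    intro u hu
    simp only [mem_compl_iff, Function.mem_support, not_not] at hu
    rw [mem_ofPred_eq, hu]
    exact lt_irrefl _
  have hm : MeasurableSet (Function.support f) := measurableSet_support hf
  rw [prob_compl_eq_zero_iff hm] at this
  rw [this]
  exact one_pos

lemma block_int (k : ℕ) : ∫⁻ u, ENNReal.ofReal u ∂(mW (Wf 0) k) ≤ (k : ℝ≥0∞) + 1 := by
  have h := ww_le 1 k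
  rw [ww_succ 0 k] at h
  exact h

lemma block_one (k : ℕ) : mW (Wf 0) k univ ≤ (k : ℝ≥0∞) + 1 := ww_le 0 k

lemma admissible : Admissible (nu 0) := by
  have hpos := tN_pos 0
  have hs : ∀ f : ℝ × ℝ → ℝ≥0∞, ∫⁻ u, f u ∂(tN 0) = ∫⁻ u, f u ∂(Nt (Wf 0)) := by
    intro f
    unfold tN
    rw [ZZ_zero, inv_one, one_smul]
  have hm : Measurable fun u : ℝ => ENNReal.ofReal u := ENNReal.measurable_ofReal
  have i1 : ∫⁻ u : ℝ × ℝ, ENNReal.ofReal u.1 ∂(tN 0) ≠ ∞ := by
    rw [hs]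
    have h1 := lintegral_Nt (Wf 0) hm (measurable_const (a := (1 : ℝ≥0∞)))
    simp only [mul_one, lintegral_one] at h1
    rw [h1]
    refine ne_top_of_le_ne_top sum_bound (ENNReal.tsum_le_tsum fun k => ?_)
    gcongr
    · exact block_int k
    · exact block_one k
  have i2 : ∫⁻ u : ℝ × ℝ, ENNReal.ofReal u.2 ∂(tN 0) ≠ ∞ := by
    rw [hs]
    have h1 := lintegral_Nt (Wf 0) (measurable_const (a := (1 : ℝ≥0∞))) hm
    simp only [one_mul, lintegral_one] at h1
    rw [h1]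
    refine ne_top_of_le_ne_top sum_bound (ENNReal.tsum_le_tsum fun k => ?_)
    gcongr
    · exact block_one k
    · exact block_int k
  have i12 : ∫⁻ u : ℝ × ℝ, ENNReal.ofReal (u.1 * u.2) ∂(tN 0) ≠ ∞ := by
    have h0 : ∫⁻ u : ℝ × ℝ, ENNReal.ofReal (u.1 * u.2) ∂(tN 0)
        = ∫⁻ u : ℝ × ℝ, ENNReal.ofReal u.1 * ENNReal.ofReal u.2 ∂(tN 0) := by
      apply lintegral_congr_ae
      filter_upwards [hpos] with u hu
      exact ENNReal.ofReal_mul hu.1.le
    rw [h0, hs, lintegral_Nt (Wf 0) hm hm]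
    refine ne_top_of_le_ne_top sum_bound (ENNReal.tsum_le_tsum fun k => ?_)
    gcongr
    · exact block_int k
    · exact block_int k
  have a1 := ofReal_int measurable_fst (hpos.mono fun u hu => hu.1) i1
  have a2 := ofReal_int measurable_snd (hpos.mono fun u hu => hu.2) i2
  have a12 := ofReal_int (measurable_fst.mul measurable_snd)
    (hpos.mono fun u hu => mul_pos hu.1 hu.2) i12
  exact {
    density := by
      rw [nu_zero]
      unfold tN
      exact (Nt_ac _).smul_left _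
    nonneg := by
      rw [nu_zero]
      filter_upwards [hpos] with u hu using ⟨hu.1.le, hu.2.le⟩
    int1 := a1.1
    pos1 := a1.2
    int2 := a2.1
    pos2 := a2.2
    int12 := a12.1
    pos12 := a12.2 }

/-! ### corners -/

lemma corner (n k : ℕ) : tN n {u | u.1 ≤ (k : ℝ) ∧ u.2 ≤ (k : ℝ)} = tN n {u | u.1 ≤ (k : ℝ)} := by
  unfold tN
  rw [Measure.smul_apply, Measure.smul_apply]
  congr 1
  have h1 : {u : ℝ × ℝ | u.1 ≤ (k : ℝ) ∧ u.2 ≤ (k : ℝ)} = Iic (k : ℝ) ×ˢ Iic (k : ℝ) := rfl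
  have h2 : {u : ℝ × ℝ | u.1 ≤ (k : ℝ)} = {v | v.1 ∈ Iic (k : ℝ)} := rfl
  rw [h1, h2, Nt_rect _ measurableSet_Iic measurableSet_Iic, Nt_fst _ measurableSet_Iic]
  congr 1
  funext j
  congr 1
  rcases Nat.lt_or_ge j k with hjk | hjk
  · congr 1
    apply le_antisymm (measure_mono (subset_univ _))
    have h3 : (univ : Set ℝ) ⊆ Iic (k : ℝ) ∪ (Ioc (j : ℝ) (j + 1))ᶜ := by
      intro t _
      by_cases ht : t ∈ Ioc (j : ℝ) (j + 1)
      · left
        have h4 : (j : ℝ) + 1 ≤ k := by exact_mod_cast hjk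
        exact ht.2.trans h4
      · right
        exact ht
    refine (measure_mono h3).trans ((measure_union_le _ _).trans ?_)
    rw [mW_compl, add_zero]
  · have h3 : mW (Wf n) j (Iic (k : ℝ)) = 0 := by
      refine measure_mono_null ?_ (mW_compl (Wf n) j)
      intro t ht ht'
      have h4 : t ≤ k := ht
      have h5 : (k : ℝ) ≤ j := by exact_mod_cast hjk
      linarith [ht'.1]
    rw [h3, zero_mul, zero_mul]

/-- There is a law with a density (and all the required moments) for which the iterated Lorenz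
curves do not become independent in the limit. -/
theorem result : ∃ ν : ℕ → Measure (ℝ × ℝ), IsIteration ν ∧ Admissible (ν 0) ∧
    ¬ TendstoUniformlyOn
      (fun (n : ℕ) (x : ℝ × ℝ) =>
        lorenz (ν n) x.1 x.2 - lorenz (ν n) x.1 1 * lorenz (ν n) 1 x.2)
      (fun _ => 0) atTop (Icc 0 1 ×ˢ Icc 0 1) := by
  refine ⟨nu, isIteration, admissible, ?_⟩
  intro hunif
  rw [Metric.tendstoUniformlyOn_iff] at hunif
  obtain ⟨N, hN⟩ := eventually_atTop.1 (hunif (5 / 1000) (by norm_num))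
  obtain ⟨m, hm, k, hk1, hk2⟩ := core Pr cc mu Pr_pos Pr_sum mu_pos Pr_rec cc_ub cc_lb (N + 1)
  obtain ⟨n, rfl⟩ : ∃ n, m = n + 1 := ⟨m - 1, by omega⟩
  have hn : N ≤ n := by omega
  -- the corner
  have hk0 : 0 < k := by
    rcases Nat.eq_zero_or_pos k with rfl | h
    · simp [QQ] at hk1
      norm_num at hk1
    · exact h
  have hk0' : (0 : ℝ) < k := by exact_mod_cast hk0
  set x : ℝ := (gf (n + 1) (k : ℝ)).toReal with hx
  have hle1 : ∀ t : ℝ, (gf (n + 1) t).toReal ≤ 1 := fun t => by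
    have := ENNReal.toReal_mono one_ne_top (gn_le_one (Wf n) t)
    rwa [ENNReal.toReal_one] at this
  have hx01 : x ∈ Icc (0 : ℝ) 1 := ⟨ENNReal.toReal_nonneg, hle1 _⟩
  have hiff : ∀ t : ℝ, 0 < t → ((gf (n + 1) t).toReal ≤ x ↔ t ≤ k) := by
    intro t ht
    rw [hx, ENNReal.toReal_le_toReal (gf_ne_top _ _) (gf_ne_top _ _), gf_le_iff (n + 1) ht hk0']
  have hq : (tN (n + 1)).real {u | u.1 ≤ (k : ℝ)} = QQ Pr (n + 1) k := by
    rw [QQ_eq, gf_succ_eq]
    rfl
  have e0 : lorenz (nu n) x x = QQ Pr (n + 1) k := by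
    rw [lorenz_eq, ← hq]
    unfold Measure.real
    rw [← corner]
    congr 1
    apply measure_congr
    filter_upwards [tN_pos (n + 1)] with u hu
    exact propext (and_congr (hiff _ hu.1) (hiff _ hu.2))
  have e1 : lorenz (nu n) x 1 = QQ Pr (n + 1) k := by
    rw [lorenz_eq, ← hq]
    unfold Measure.real
    congr 1
    apply measure_congr
    filter_upwards [tN_pos (n + 1)] with u hu
    exact propext ⟨fun h => (hiff _ hu.1).1 h.1, fun h => ⟨(hiff _ hu.1).2 h, hle1 _⟩⟩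
  have e2 : lorenz (nu n) 1 x = QQ Pr (n + 1) k := by
    have hq2 : (tN (n + 1)).real {u | u.2 ≤ (k : ℝ)} = QQ Pr (n + 1) k := by
      rw [← hq]
      unfold Measure.real tN
      rw [Measure.smul_apply, Measure.smul_apply]
      congr 2
      exact (Nt_snd (Wf (n + 1)) (measurableSet_Iic (a := (k : ℝ)))).trans
        (Nt_fst (Wf (n + 1)) (measurableSet_Iic (a := (k : ℝ)))).symm
    rw [lorenz_eq, ← hq2]
    unfold Measure.real
    congr 1
    apply measure_congr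
    filter_upwards [tN_pos (n + 1)] with u hu
    exact propext ⟨fun h => (hiff _ hu.2).1 h.2, fun h => ⟨hle1 _, (hiff _ hu.2).2 h⟩⟩
  have h1 := hN n hn (x, x) ⟨hx01, hx01⟩
  simp only [e0, e1, e2] at h1
  rw [Real.dist_eq, zero_sub, abs_neg] at h1
  have h2 := lt_of_abs_lt h1
  nlinarith

end Pool.Agent.Results.MP_357d86_pr.BlockDensity
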